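import Pool.Agent.K3h32.Congr.Matrices

/-!
# The action on the hyperbolic plane
-/

set_option autoImplicit false

namespace Pool.Agent.K3h32.Congr

open Matrix UpperHalfPlane

theorem gl_smul_dist (g : GL (Fin 2) ℝ) (z w : ℍ) : dist (g • z) (g • w) = dist z w := by
  have hz := denom_ne_zero g z
  have hw := denom_ne_zero g w
  have hcoe : dist ((g • z : ℍ) : ℂ) ((g • w : ℍ) : ℂ) =
      |g.det.val| * dist (z : ℂ) (w : ℂ) / (‖denom g z‖ * ‖denom g w‖) := by
    rw [coe_smul, coe_smul, dist_eq_norm, ← map_sub, norm_σ, dist_eq_norm, div_sub_div _ _ hz hw,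
      norm_div, norm_mul]
    congr 1
    have : num g z * denom g w - denom g z * num g w = ((g.det.val : ℝ) : ℂ) * ((z : ℂ) - w) := by
      simp only [num, denom, Matrix.GeneralLinearGroup.val_det_apply, Matrix.det_fin_two]
      push_cast
      ring
    rw [this, norm_mul, Complex.norm_real, Real.norm_eq_abs]
  have hcosh : Real.cosh (dist (g • z) (g • w)) = Real.cosh (dist z w) := by
    rw [cosh_dist, cosh_dist, hcoe, im_smul_eq_div_normSq, im_smul_eq_div_normSq,
      Complex.normSq_eq_norm_sq, Complex.normSq_eq_norm_sq]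
    have hd : |g.det.val| ≠ 0 := by
      rw [abs_ne_zero]
      exact g.det.ne_zero
    have hz' : ‖denom g z‖ ≠ 0 := norm_ne_zero_iff.2 hz
    have hw' : ‖denom g w‖ ≠ 0 := norm_ne_zero_iff.2 hw
    have h1 := z.im_ne_zero
    have h2 := w.im_ne_zero
    field_simp
  exact Real.cosh_strictMonoOn.injOn dist_nonneg dist_nonneg hcosh

/-- The action of a matrix as an isometry. -/
noncomputable def isom (g : GL (Fin 2) ℝ) : IsometryEquiv ℍ ℍ where
  toEquiv := MulAction.toPerm g
  isometry_toFun := Isometry.of_dist_eq fun z w => gl_smul_dist g z w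

theorem isom_apply (g : GL (Fin 2) ℝ) (z : ℍ) : isom g z = g • z := rfl

open Cardinal in
/-- A free group of matrices of rank at most continuum, with prescribed signs. -/
theorem exists_hom (M : Type) (hM : Cardinal.mk M ≤ Cardinal.continuum) (δ : M → ℤˣ) :
    ∃ Φ : FreeGroup M →* GL (Fin 2) ℝ, (∀ w : FreeGroup M, w ≠ 1 → (Φ w) 1 0 ≠ 0) ∧
      ∀ w : FreeGroup M, (Φ w).val.det = (((FreeGroup.lift δ w : ℤˣ) : ℤ) : ℝ) := by
  classical
  have h2 : Cardinal.mk (M ⊕ M) ≤ Cardinal.continuum := by
    rw [Cardinal.mk_sum, Cardinal.lift_id]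
    exact Cardinal.add_le_of_le Cardinal.aleph0_le_continuum hM hM
  obtain ⟨ρ, hρ⟩ := exists_algInd h2
  let e : M → ℚ := fun i => -((δ i : ℤ) : ℚ)
  have he : ∀ i, e i = 1 ∨ e i = -1 := by
    intro i
    rcases Int.units_eq_one_or (δ i) with h | h <;> simp [e, h]
  let er : M → ℝ := fun i => (e i : ℝ)
  have her : ∀ i, er i * er i = 1 := by
    intro i
    rcases he i with h | h <;> simp [er, h]
  let gen : M → GL (Fin 2) ℝ := fun i =>
    ⟨letter (ρ ∘ Sum.inl) (ρ ∘ Sum.inr) er (i, true),
      letter (ρ ∘ Sum.inl) (ρ ∘ Sum.inr) er (i, false),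
      letter_mul_inv _ _ _ her i, letter_inv_mul _ _ _ her i⟩
  have hlist : ∀ W : List (M × Bool), (FreeGroup.lift gen (FreeGroup.mk W)).val =
      word (ρ ∘ Sum.inl) (ρ ∘ Sum.inr) er W := by
    intro W
    induction W with
    | nil =>
      rw [word_nil, ← FreeGroup.one_eq_mk, map_one]
      rfl
    | cons s W ih =>
      have hs : FreeGroup.mk (s :: W) = FreeGroup.mk [s] * FreeGroup.mk W := by
        rw [FreeGroup.mul_mk]; rfl
      rw [hs, map_mul, Units.val_mul, ih, word_cons]
      congr 1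
      rcases s with ⟨i, b⟩
      cases b
      · simp [gen, FreeGroup.lift_mk]
      · simp [gen, FreeGroup.lift_mk]
  refine ⟨FreeGroup.lift gen, ?_, ?_⟩
  · intro w hw
    have h1 := hlist w.toWord
    rw [FreeGroup.mk_toWord] at h1
    rw [h1]
    apply word_ne_zero_real ρ hρ e he w.toWord FreeGroup.isReduced_toWord
    intro h
    exact hw (FreeGroup.toWord_eq_nil_iff.1 h)
  · intro w
    induction w using FreeGroup.induction_on with
    | C1 => simp
    | of i =>
      simp only [FreeGroup.lift_apply_of]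
      change (letter (ρ ∘ Sum.inl) (ρ ∘ Sum.inr) er (i, true)).det = _
      rw [letter_det]
      simp [er, e]
    | inv_of i _ =>
      simp only [map_inv, FreeGroup.lift_apply_of]
      change (letter (ρ ∘ Sum.inl) (ρ ∘ Sum.inr) er (i, false)).det = _
      rcases Int.units_eq_one_or (δ i) with h | h <;>
        simp [letter, Matrix.det_fin_two, er, e, h] <;> ring
    | mul x y hx hy =>
      rw [map_mul, map_mul, Units.val_mul, Matrix.det_mul, hx, hy]
      push_cast
      rfl

/-- An orientation reversing element of the group has no fixed point. -/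
theorem det_pos_of_fixed {M : Type} (Φ : FreeGroup M →* GL (Fin 2) ℝ)
    (h1 : ∀ w : FreeGroup M, w ≠ 1 → (Φ w) 1 0 ≠ 0) (w : FreeGroup M) (z : ℍ)
    (hw : Φ w • z = z) : 0 < (Φ w).val.det := by
  by_contra hcon
  have hneg : (Φ w).val.det < 0 := lt_of_le_of_ne (not_lt.1 hcon) (Φ w).det.ne_zero
  have htr := (exists_gl_smul_eq_self_iff_trace_eq_zero hneg).1 ⟨z, hw⟩
  have hsq : w * w = 1 := by
    by_contra hne
    apply h1 _ hne
    rw [map_mul, Units.val_mul, Matrix.mul_apply, Fin.sum_univ_two]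
    rw [Matrix.trace_fin_two] at htr
    have : (Φ w).val 1 1 = -(Φ w).val 0 0 := by linarith
    rw [this]; ring
  have hw1 : w = 1 := by
    have : w ^ 2 = 1 := by rw [pow_two]; exact hsq
    exact (isOfFinOrder_iff_pow_eq_one.2 ⟨2, by norm_num, this⟩ : IsOfFinOrder w).eq_one'
  rw [hw1, map_one] at hneg
  simp at hneg
  linarith

/-- Two elements with a common fixed point commute. -/
theorem commute_of_fixed {M : Type} (Φ : FreeGroup M →* GL (Fin 2) ℝ)
    (h1 : ∀ w : FreeGroup M, w ≠ 1 → (Φ w) 1 0 ≠ 0) (v w : FreeGroup M) (z : ℍ)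
    (hv : Φ v • z = z) (hw : Φ w • z = z) : v * w = w * v := by
  have hform : ∀ u : FreeGroup M, Φ u • z = z →
      (Φ u).val 0 1 = -(Φ u).val 1 0 * (z.re ^ 2 + z.im ^ 2) ∧
      (Φ u).val 1 1 = (Φ u).val 0 0 - 2 * (Φ u).val 1 0 * z.re := by
    intro u hu
    have hpos := det_pos_of_fixed Φ h1 u z hu
    have hq := (gl_smul_eq_self_iff_quadratic hpos).1 hu
    have hre := congrArg Complex.re hq
    have him := congrArg Complex.im hq
    simp only [Complex.add_re, Complex.mul_re, Complex.ofReal_re, Complex.ofReal_im,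
      Complex.mul_im, Complex.sub_re, Complex.sub_im, Complex.neg_re, Complex.zero_re,
      Complex.add_im, Complex.neg_im, Complex.zero_im, coe_re, coe_im] at hre him
    have hz : z.im ≠ 0 := z.im_ne_zero
    have e1 : (Φ u).val 1 1 = (Φ u).val 0 0 - 2 * (Φ u).val 1 0 * z.re := by
      have : z.im * ((Φ u).val 1 1 - ((Φ u).val 0 0 - 2 * (Φ u).val 1 0 * z.re)) = 0 := by
        linear_combination him
      rcases mul_eq_zero.1 this with h | h
      · exact absurd h hz
      · linarith
    refine ⟨?_, e1⟩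
    rw [e1] at hre
    linear_combination -hre
  obtain ⟨a1, a2⟩ := hform v hv
  obtain ⟨b1, b2⟩ := hform w hw
  have hcomm : Φ (v * w) = Φ (w * v) := by
    rw [map_mul, map_mul]
    ext i j
    rw [Units.val_mul, Units.val_mul, Matrix.mul_apply, Matrix.mul_apply, Fin.sum_univ_two,
      Fin.sum_univ_two]
    fin_cases i <;> fin_cases j <;> simp only [Fin.zero_eta, Fin.mk_one, Fin.isValue] <;>
      simp only [a1, b1, a2, b2] <;> ring
  by_contra hne
  have h2 : v * w * (w * v)⁻¹ ≠ 1 := by
    intro h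
    exact hne (mul_inv_eq_one.1 h)
  apply h1 _ h2
  rw [map_mul, map_inv, hcomm, mul_inv_cancel]
  simp

end Pool.Agent.K3h32.Congr
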