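import Mathlib

/-!
# Systems of congruences along a cycle
-/

set_option autoImplicit false

namespace Pool.Agent.K3h32.Congr

variable {I M : Type}

/-- The set on the source side of a letter. -/
def src (L R : M → Set I) (s : M × Bool) : Set I := if s.2 then L s.1 else R s.1

/-- The set on the target side of a letter. -/
def tgt (L R : M → Set I) (s : M × Bool) : Set I := if s.2 then R s.1 else L s.1

/-- The formal inverse of a letter. -/
def inv (s : M × Bool) : M × Bool := (s.1, !s.2)

theorem src_inv (L R : M → Set I) (s : M × Bool) : src L R (inv s) = tgt L R s := by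
  rcases s with ⟨i, b⟩; cases b <;> rfl

theorem tgt_inv (L R : M → Set I) (s : M × Bool) : tgt L R (inv s) = src L R s := by
  rcases s with ⟨i, b⟩; cases b <;> rfl

/-- All sets are nonempty and proper. -/
def Proper (L R : M → Set I) : Prop :=
  ∀ i, (L i).Nonempty ∧ L i ≠ Set.univ ∧ (R i).Nonempty ∧ R i ≠ Set.univ

theorem Proper.tgt_nonempty {L R : M → Set I} (h : Proper L R) (s : M × Bool) :
    (tgt L R s).Nonempty := by
  rcases s with ⟨i, b⟩; cases b
  · exact (h i).1
  · exact (h i).2.2.1

theorem Proper.tgt_ne {L R : M → Set I} (h : Proper L R) (s : M × Bool) :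
    tgt L R s ≠ Set.univ := by
  rcases s with ⟨i, b⟩; cases b
  · exact (h i).2.1
  · exact (h i).2.2.2

/-- A rule for the colour at the end of an edge. -/
theorem exists_next {L R : M → Set I} (h : Proper L R) :
    ∃ next : M × Bool → I → I, (∀ s a, a ∈ src L R s ↔ next s a ∈ tgt L R s) ∧
      ∀ s a b, (a ∈ src L R s ↔ b ∈ src L R s) → next s a = next s b := by
  classical
  choose p hp using fun s => h.tgt_nonempty s
  have hq' : ∀ s, ∃ x, x ∉ tgt L R s := fun s => (Set.ne_univ_iff_exists_notMem _).1 (h.tgt_ne s)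
  choose q hq using hq'
  refine ⟨fun s a => if a ∈ src L R s then p s else q s, fun s a => ?_, fun s a b hab => ?_⟩
  · by_cases ha : a ∈ src L R s
    · simp [ha, hp]
    · simp [ha, hq]
  · simp only [hab]

/-- A rule for a colour on the other side. -/
theorem exists_other {L R : M → Set I} (h : Proper L R) (α : I) :
    ∃ B : M × Bool → I, ∀ s, B s ∈ tgt L R s ↔ α ∉ tgt L R s := by
  have : ∀ s, ∃ x, (x ∈ tgt L R s ↔ α ∉ tgt L R s) := by
    intro s
    by_cases ha : α ∈ tgt L R s
    · obtain ⟨x, hx⟩ := (Set.ne_univ_iff_exists_notMem _).1 (h.tgt_ne s)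
      exact ⟨x, by simp [ha, hx]⟩
    · obtain ⟨x, hx⟩ := h.tgt_nonempty s
      exact ⟨x, by simp [ha, hx]⟩
  choose B hB using this
  exact ⟨B, hB⟩

open Classical in
/-- The sign of a letter. -/
noncomputable def sgn (L R : M → Set I) (α : I) (s : M × Bool) : ℤˣ :=
  if (α ∈ src L R s ↔ α ∈ tgt L R s) then 1 else -1

theorem succ_emod {n : ℕ} (hn : 0 < n) (j : ℤ) :
    ((j + 1) % n).toNat = if (j % n).toNat + 1 = n then 0 else (j % n).toNat + 1 := by
  have hn' : (0 : ℤ) < n := by exact_mod_cast hn
  have h0 := Int.emod_nonneg j hn'.ne'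
  have h1 := Int.emod_lt_of_pos j hn'
  have h2 : (j + 1) % (n : ℤ) = (j % n + 1) % n := by rw [Int.emod_add_emod]
  rw [h2]
  split_ifs with h
  · have h3 : j % (n : ℤ) + 1 = n := by
      have := congrArg (Nat.cast : ℕ → ℤ) h
      push_cast at this
      rw [Int.toNat_of_nonneg h0] at this
      exact this
    rw [h3, Int.emod_self]; rfl
  · have h3 : j % (n : ℤ) + 1 < n := by
      rcases lt_or_eq_of_le (Int.add_one_le_iff.2 h1) with h' | h'
      · exact h'
      · exfalso
        apply h
        zify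
        rw [Int.toNat_of_nonneg h0]
        exact h'
    rw [Int.emod_eq_of_lt (by linarith) h3]
    omega

theorem toNat_emod_lt {n : ℕ} (hn : 0 < n) (j : ℤ) : (j % n).toNat < n := by
  have hn' : (0 : ℤ) < n := by exact_mod_cast hn
  have h1 := Int.emod_lt_of_pos j hn'
  have h0 := Int.emod_nonneg j hn'.ne'
  zify
  rw [Int.toNat_of_nonneg h0]
  exact h1

theorem periodic_apply {X : Type} {n : ℕ} (hn : 0 < n) (t : ℤ → X) (ht : ∀ j, t (j + n) = t j)
    (j : ℤ) : t ((j % n).toNat) = t j := by
  have hn' : (0 : ℤ) < n := by exact_mod_cast hn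
  rw [Int.toNat_of_nonneg (Int.emod_nonneg j hn'.ne')]
  have hp : Function.Periodic t (n : ℤ) := ht
  have h1 := hp.int_mul (j / n) (j % n)
  have h2 : j % (n : ℤ) + (j / n) * n = j := by
    rw [mul_comm]; exact Int.emod_add_mul_ediv j n
  rw [← h1]
  congr 1

/-- The case in which the sets at the seam cross. -/
theorem axis_cross {L R : M → Set I} (h : Proper L R) (α : I) (t : ℤ → M × Bool) {n : ℕ}
    (hn : 0 < n) (ht : ∀ j, t (j + n) = t j)
    (h1 : tgt L R (t (-1)) ≠ src L R (t 0)) (h2 : tgt L R (t (-1)) ≠ (src L R (t 0))ᶜ) :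
    ∃ a : ℤ → I, (∀ j, a (j + n) = a j) ∧ ∀ j, a j ∈ src L R (t j) ↔ a (j + 1) ∈ tgt L R (t j) := by
  obtain ⟨next, hnext, hdep⟩ := exists_next h
  let b : I → ℕ → I := fun a0 k => Nat.rec a0 (fun k x => next (t k) x) k
  have hb0 : ∀ a0, b a0 0 = a0 := fun _ => rfl
  have hbs : ∀ a0 (k : ℕ), b a0 (k + 1) = next (t k) (b a0 k) := fun _ _ => rfl
  have hlast : t ((n - 1 : ℕ) : ℤ) = t (-1) := by
    rw [← ht (-1)]
    congr 1
    omega
  have key : ∃ a0, (b a0 (n - 1) ∈ src L R (t (-1)) ↔ a0 ∈ tgt L R (t (-1))) := by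
    by_contra hcon
    push Not at hcon
    have hc : ∀ a0, (a0 ∈ tgt L R (t (-1)) ↔ ¬ b a0 (n - 1) ∈ src L R (t (-1))) := by
      intro a0
      rcases hcon a0 with ⟨x, y⟩ | ⟨x, y⟩ <;> tauto
    have hdep' : ∀ a0 a1, (a0 ∈ src L R (t 0) ↔ a1 ∈ src L R (t 0)) →
        (b a0 (n - 1) ∈ src L R (t (-1)) ↔ b a1 (n - 1) ∈ src L R (t (-1))) := by
      intro a0 a1 h01
      rcases Nat.lt_or_ge 1 n with hn1 | hn1
      · have hk : ∀ k : ℕ, b a0 (k + 1) = b a1 (k + 1) := by
          intro k
          induction k with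
          | zero =>
            rw [hbs, hbs, hb0, hb0]
            exact hdep _ _ _ (by exact_mod_cast h01)
          | succ k ih => rw [hbs a0 (k + 1), hbs a1 (k + 1), ih]
        have : n - 1 = (n - 2) + 1 := by omega
        rw [this, hk]
      · have : n = 1 := by omega
        subst this
        have e : t (-1) = t 0 := by rw [← hlast]; rfl
        rw [e]
        exact h01
    have hcase : ∀ a0 a1, (a0 ∈ src L R (t 0) ↔ a1 ∈ src L R (t 0)) →
        (a0 ∈ tgt L R (t (-1)) ↔ a1 ∈ tgt L R (t (-1))) := by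
      intro a0 a1 h01
      rw [hc, hc, hdep' a0 a1 h01]
    obtain ⟨x, hx⟩ := h.tgt_nonempty (t (-1))
    obtain ⟨y, hy⟩ := (Set.ne_univ_iff_exists_notMem _).1 (h.tgt_ne (t (-1)))
    by_cases hxs : x ∈ src L R (t 0)
    · by_cases hys : y ∈ src L R (t 0)
      · exact hy ((hcase x y (by tauto)).1 hx)
      · apply h1
        ext z
        constructor
        · intro hz
          by_contra hzs
          exact hy ((hcase z y (by tauto)).1 hz)
        · intro hz
          exact (hcase x z (by tauto)).1 hx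
    · by_cases hys : y ∈ src L R (t 0)
      · apply h2
        ext z
        rw [Set.mem_compl_iff]
        constructor
        · intro hz hzs
          exact hy ((hcase z y (by tauto)).1 hz)
        · intro hz
          exact (hcase x z (by tauto)).1 hx
      · exact hy ((hcase x y (by tauto)).1 hx)
  obtain ⟨a0, ha0⟩ := key
  refine ⟨fun j => b a0 (j % n).toNat, fun j => ?_, fun j => ?_⟩
  · simp
  · simp only
    rw [succ_emod hn, ← periodic_apply hn t ht j]
    split_ifs with hk
    · have hk' : (j % (n : ℤ)).toNat = n - 1 := by omega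
      rw [hk', hlast, hb0]
      exact ha0
    · rw [hbs]
      exact hnext _ _

/-- The case in which all sets are aligned. -/
theorem axis_aligned {L R : M → Set I} (h : Proper L R) (α : I) (t : ℤ → M × Bool) {n : ℕ}
    (hn : 0 < n) (ht : ∀ j, t (j + n) = t j)
    (hpar : ∏ k ∈ Finset.range n, sgn L R α (t k) = 1)
    (hal : ∀ j, tgt L R (t j) = src L R (t (j + 1)) ∨ tgt L R (t j) = (src L R (t (j + 1)))ᶜ) :
    ∃ a : ℤ → I, (∀ j, a (j + n) = a j) ∧ ∀ j, a j ∈ src L R (t j) ↔ a (j + 1) ∈ tgt L R (t j) := by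
  classical
  obtain ⟨B, hB⟩ := exists_other h α
  let p : ℕ → ℤˣ := fun k => ∏ i ∈ Finset.range k, sgn L R α (t i)
  let π : ℤ → ℤˣ := fun j => p (j % n).toNat
  have hπ : ∀ j, π (j + 1) = π j * sgn L R α (t j) := by
    intro j
    simp only [π]
    rw [succ_emod hn, ← periodic_apply hn t ht j]
    have e : p ((j % (n : ℤ)).toNat + 1) = p (j % (n : ℤ)).toNat * sgn L R α (t (j % (n : ℤ)).toNat) := by
      simp only [p]
      rw [Finset.prod_range_succ]
    split_ifs with hk
    · rw [← e, hk]
      simp only [p]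
      rw [hpar]; simp
    · exact e
  have hπn : ∀ j, π (j + n) = π j := by intro j; simp [π]
  refine ⟨fun j => if π j = 1 then α else B (t (j - 1)), fun j => ?_, fun j => ?_⟩
  · simp only [hπn]
    have : j + n - 1 = (j - 1) + n := by ring
    rw [this, ht]
  · simp only
    have hj : j + 1 - 1 = j := by ring
    rw [hj]
    have hB' : (B (t (j - 1)) ∈ src L R (t j) ↔ α ∉ src L R (t j)) := by
      have h1 := hB (t (j - 1))
      have h2 := hal (j - 1)
      rw [sub_add_cancel] at h2
      rcases h2 with h2 | h2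
      · rw [h2] at h1; exact h1
      · rw [h2, Set.mem_compl_iff, Set.mem_compl_iff] at h1
        tauto
    have hBj := hB (t j)
    have hs : sgn L R α (t j) = 1 ∨ sgn L R α (t j) = -1 := Int.units_eq_one_or _
    have hne : (-1 : ℤˣ) ≠ 1 := by decide
    rcases Int.units_eq_one_or (π j) with h1 | h1
    · rcases hs with h2 | h2
      · have h3 : π (j + 1) = 1 := by rw [hπ, h1, h2]; rfl
        rw [if_pos h1, if_pos h3]
        unfold sgn at h2
        by_contra hc
        rw [if_neg hc] at h2
        exact hne h2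
      · have h3 : π (j + 1) ≠ 1 := by rw [hπ, h1, h2]; decide
        rw [if_pos h1, if_neg h3, hBj]
        unfold sgn at h2
        by_contra hc
        rw [if_pos (by tauto)] at h2
        exact hne h2.symm
    · have h1' : π j ≠ 1 := by rw [h1]; decide
      rcases hs with h2 | h2
      · have h3 : π (j + 1) ≠ 1 := by rw [hπ, h1, h2]; decide
        rw [if_neg h1', if_neg h3, hBj, hB']
        unfold sgn at h2
        by_contra hc
        rw [if_neg (by tauto)] at h2
        exact hne h2
      · have h3 : π (j + 1) = 1 := by rw [hπ, h1, h2]; decide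
        rw [if_neg h1', if_pos h3, hB']
        unfold sgn at h2
        by_contra hc
        rw [if_pos (by tauto)] at h2
        exact hne h2.symm

theorem prod_shift {n : ℕ} (hn : 0 < n) (f : ℤ → ℤˣ) (hf : ∀ j, f (j + n) = f j) (m : ℤ) :
    ∏ k ∈ Finset.range n, f (k + m) = ∏ k ∈ Finset.range n, f k := by
  have step : ∀ m : ℤ, ∏ k ∈ Finset.range n, f (k + (m + 1)) = ∏ k ∈ Finset.range n, f (k + m) := by
    intro m
    obtain ⟨n', rfl⟩ : ∃ n', n = n' + 1 := ⟨n - 1, by omega⟩
    rw [Finset.prod_range_succ, Finset.prod_range_succ']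
    congr 1
    · apply Finset.prod_congr rfl
      intro k _
      congr 1
      push_cast; ring
    · have : ((n' : ℤ) + (m + 1)) = m + ((n' + 1 : ℕ) : ℤ) := by push_cast; ring
      rw [this, hf]
      congr 1
      simp
  induction m using Int.induction_on with
  | zero => simp
  | succ i ih => rw [step, ih]
  | pred i ih =>
    rw [← ih, ← step (-i - 1)]
    congr 1
    funext k
    congr 1
    ring

/-- Colours along an axis. -/
theorem axis {L R : M → Set I} (h : Proper L R) (α : I) (t : ℤ → M × Bool) {n : ℕ}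
    (hn : 0 < n) (ht : ∀ j, t (j + n) = t j)
    (hpar : ∏ k ∈ Finset.range n, sgn L R α (t k) = 1) :
    ∃ a : ℤ → I, (∀ j, a (j + n) = a j) ∧ ∀ j, a j ∈ src L R (t j) ↔ a (j + 1) ∈ tgt L R (t j) := by
  by_cases hal : ∀ j, tgt L R (t j) = src L R (t (j + 1)) ∨ tgt L R (t j) = (src L R (t (j + 1)))ᶜ
  · exact axis_aligned h α t hn ht hpar hal
  · push Not at hal
    obtain ⟨m, hm1, hm2⟩ := hal
    obtain ⟨a, ha1, ha2⟩ := axis_cross h α (fun j => t (j + (m + 1))) hn
      (fun j => by rw [add_right_comm, ht]) (by simpa using hm1) (by simpa using hm2)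
    refine ⟨fun j => a (j - (m + 1)), fun j => ?_, fun j => ?_⟩
    · simp only
      rw [← ha1 (j - (m + 1))]
      congr 1
      ring
    · have := ha2 (j - (m + 1))
      simp only [sub_add_cancel] at this
      rw [this]
      simp only
      have e : j + 1 - (m + 1) = j - (m + 1) + 1 := by ring
      rw [e]

end Pool.Agent.K3h32.Congr
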