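import Pool.Agent.K3h32.Congr.Tree
import Pool.Agent.K3h32.Congr.Action

/-!
# Every proper system of at most continuum many congruences is solvable in the hyperbolic plane
-/

set_option autoImplicit false

namespace Pool.Agent.K3h32.Congr

open UpperHalfPlane

/-- A commutative free group is cyclic. -/
theorem subsingleton_of_comm {G : Type} (h : ∀ x y : FreeGroup G, x * y = y * x) :
    Subsingleton G := by
  classical
  constructor
  intro a b
  have h1 := congrArg FreeGroup.toWord (h (FreeGroup.of a) (FreeGroup.of b))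
  by_contra hne
  have e1 : (FreeGroup.of a * FreeGroup.of b).toWord = [(a, true), (b, true)] := by
    rw [toWord_mul_of_reduced]
    · simp
    · simp [FreeGroup.toWord_of]
  have e2 : (FreeGroup.of b * FreeGroup.of a).toWord = [(b, true), (a, true)] := by
    rw [toWord_mul_of_reduced]
    · simp
    · simp [FreeGroup.toWord_of]
  rw [e1, e2] at h1
  simp at h1
  exact hne h1.1

theorem isCyclic_of_comm {G : Type} (h : ∀ x y : FreeGroup G, x * y = y * x) :
    ∃ g : FreeGroup G, ∀ x : FreeGroup G, x ∈ Subgroup.zpowers g := by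
  have := subsingleton_of_comm h
  rcases isEmpty_or_nonempty G with hG | ⟨⟨a⟩⟩
  · refine ⟨1, fun x => ?_⟩
    have : x = 1 := Subsingleton.elim _ _
    rw [this]; exact Subgroup.one_mem _
  · haveI : Unique G := ⟨⟨a⟩, fun b => Subsingleton.elim _ _⟩
    exact IsCyclic.exists_generator

theorem exists_generator_of_comm {M : Type} (S : Subgroup (FreeGroup M))
    (h : ∀ x ∈ S, ∀ y ∈ S, x * y = y * x) :
    ∃ w ∈ S, ∀ u : FreeGroup M, u ∈ S ↔ u ∈ Subgroup.zpowers w := by
  haveI : IsFreeGroup S := subgroupIsFreeOfIsFree S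
  let φ : S ≃* FreeGroup (IsFreeGroup.Generators S) := IsFreeGroup.toFreeGroup S
  obtain ⟨g, hg⟩ := isCyclic_of_comm (G := IsFreeGroup.Generators S) (fun x y => by
    apply φ.symm.injective
    rw [MulEquiv.map_mul, MulEquiv.map_mul]
    apply Subtype.ext
    exact h _ (φ.symm x).2 _ (φ.symm y).2)
  refine ⟨(φ.symm g : S), (φ.symm g).2, fun u => ⟨fun hu => ?_, fun hu => ?_⟩⟩
  · obtain ⟨k, hk⟩ := Subgroup.mem_zpowers_iff.1 (hg (φ ⟨u, hu⟩))
    rw [Subgroup.mem_zpowers_iff]
    refine ⟨k, ?_⟩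
    have h1 := congrArg φ.symm hk
    rw [map_zpow, MulEquiv.symm_apply_apply] at h1
    have h2 := congrArg (Subtype.val : S → FreeGroup M) h1
    simpa using h2
  · obtain ⟨k, rfl⟩ := Subgroup.mem_zpowers_iff.1 hu
    exact S.zpow_mem (φ.symm g).2 k

/-- Solutions on a space with an action of a free group. -/
theorem exists_coloring {I M X : Type} [MulAction (FreeGroup M) X] {L R : M → Set I}
    (h : Proper L R) (α : I)
    (hst : ∀ x : X, ∃ w : FreeGroup M, (∀ u : FreeGroup M, u • x = x ↔ u ∈ Subgroup.zpowers w) ∧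
      FreeGroup.lift (fun i => sgn L R α (i, true)) w = 1) :
    ∃ c : X → I, ∀ i x, c x ∈ L i ↔ c (FreeGroup.of i • x) ∈ R i := by
  classical
  let Q := Quotient (MulAction.orbitRel (FreeGroup M) X)
  let b : Q → X := fun q => q.out
  choose w hw1 hw2 using hst
  choose c hc1 hc2 using fun x => periodic h α (w x) (hw2 x)
  have hz : ∀ x (u : FreeGroup M) (m : ℤ), c x (u * w x ^ m) = c x u := by
    intro x u m
    induction m using Int.induction_on with
    | zero => simp
    | succ i ih => rw [zpow_add_one, ← mul_assoc, hc1, ih]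
    | pred i ih =>
      rw [← ih, ← hc1 x (u * w x ^ (-(i : ℤ) - 1)), mul_assoc, ← zpow_add_one]
      simp
  have horb : ∀ x : X, ∃ u : FreeGroup M, u • b (Quotient.mk _ x) = x := by
    intro x
    have h0 : (MulAction.orbitRel (FreeGroup M) X) (b (Quotient.mk _ x)) x :=
      Quotient.mk_out (s := MulAction.orbitRel (FreeGroup M) X) x
    exact Setoid.symm' _ h0
  choose u hu using horb
  refine ⟨fun x => c (b (Quotient.mk _ x)) (u x), fun i x => ?_⟩
  simp only
  have hq : (Quotient.mk (MulAction.orbitRel (FreeGroup M) X) (FreeGroup.of i • x)) =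
      Quotient.mk _ x := by
    apply Quotient.sound
    exact ⟨FreeGroup.of i, rfl⟩
  have h1 := hu (FreeGroup.of i • x)
  rw [hq] at h1
  rw [hq]
  set y := b (Quotient.mk _ x) with hy
  have h2 : ((FreeGroup.of i * u x)⁻¹ * u (FreeGroup.of i • x)) • y = y := by
    rw [mul_smul, h1, inv_smul_eq_iff, mul_smul, hu x]
  obtain ⟨m, hm⟩ := Subgroup.mem_zpowers_iff.1 ((hw1 y _).1 h2)
  have h3 : u (FreeGroup.of i • x) = FreeGroup.of i * u x * w y ^ m := by
    rw [hm]; group
  rw [h3, hz, ← hc2]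

theorem main (I M : Type) (L R : M → Set I) (hI : Nonempty I)
    (hM : Cardinal.mk M ≤ Cardinal.continuum)
    (hprop : ∀ i, (L i).Nonempty ∧ L i ≠ Set.univ ∧ (R i).Nonempty ∧ R i ≠ Set.univ) :
    ∃ A : I → Set UpperHalfPlane,
      Pairwise (fun j k => Disjoint (A j) (A k)) ∧
      (⋃ j, A j) = Set.univ ∧
      ∀ i, ∃ g : IsometryEquiv UpperHalfPlane UpperHalfPlane,
        g '' (⋃ j ∈ L i, A j) = ⋃ j ∈ R i, A j := by
  obtain ⟨α⟩ := hI
  obtain ⟨Φ, hΦ1, hΦ2⟩ := exists_hom M hM (fun i => sgn L R α (i, true))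
  letI : MulAction (FreeGroup M) ℍ := MulAction.compHom ℍ Φ
  have hact : ∀ (u : FreeGroup M) (z : ℍ), u • z = Φ u • z := fun _ _ => rfl
  obtain ⟨c, hc⟩ := exists_coloring (X := ℍ) (L := L) (R := R) hprop α (by
    intro x
    obtain ⟨w, hwS, hw⟩ := exists_generator_of_comm (MulAction.stabilizer (FreeGroup M) x)
      (fun v hv w hw => commute_of_fixed Φ hΦ1 v w x hv hw)
    refine ⟨w, fun u => ?_, ?_⟩
    · rw [← hw u]; exact Iff.rfl
    · have h1 := det_pos_of_fixed Φ hΦ1 w x hwS
      rw [hΦ2] at h1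
      rcases Int.units_eq_one_or (FreeGroup.lift (fun i => sgn L R α (i, true)) w) with h2 | h2
      · exact h2
      · rw [h2] at h1
        norm_num at h1)
  refine ⟨fun j => c ⁻¹' {j}, ?_, ?_, fun i => ⟨isom (Φ (FreeGroup.of i)), ?_⟩⟩
  · intro j k hjk
    rw [Set.disjoint_left]
    intro x hx hx'
    simp only [Set.mem_preimage, Set.mem_singleton_iff] at hx hx'
    exact hjk (hx.symm.trans hx')
  · ext x; simp
  · ext y
    simp only [Set.mem_image, Set.mem_iUnion, Set.mem_preimage, Set.mem_singleton_iff, exists_prop,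
      exists_eq_right']
    constructor
    · rintro ⟨x, hx, rfl⟩
      rw [isom_apply, ← hact]
      exact (hc i x).1 hx
    · intro hy
      refine ⟨(FreeGroup.of i)⁻¹ • y, ?_, ?_⟩
      · rw [hc, smul_inv_smul]; exact hy
      · rw [isom_apply, ← hact, smul_inv_smul]

end Pool.Agent.K3h32.Congr
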