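import Mathlib

/-!
# A free group of matrices of rank continuum, with prescribed signs of the determinants

The matrix of the `i`-th generator is `z ↦ x_i + e_i / (z - y_i)`, with determinant `-e_i`.
-/

set_option autoImplicit false

namespace Pool.Agent.K3h32.Congr

open Matrix

section Ring

variable {R S : Type} [CommRing R] [CommRing S] {M : Type}

/-- The matrix of the letter `s`. -/
def letter (x y e : M → R) (s : M × Bool) : Matrix (Fin 2) (Fin 2) R :=
  if s.2 then !![x s.1, e s.1 - x s.1 * y s.1; 1, -y s.1]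
  else !![e s.1 * y s.1, 1 - e s.1 * x s.1 * y s.1; e s.1, -(e s.1 * x s.1)]

/-- The matrix of a word. -/
def word (x y e : M → R) (W : List (M × Bool)) : Matrix (Fin 2) (Fin 2) R :=
  (W.map (letter x y e)).prod

theorem letter_map (f : R →+* S) (x y e : M → R) (s : M × Bool) :
    f.mapMatrix (letter x y e s) = letter (f ∘ x) (f ∘ y) (f ∘ e) s := by
  unfold letter
  split_ifs <;> ext i j <;> fin_cases i <;> fin_cases j <;> simp

theorem word_map (f : R →+* S) (x y e : M → R) (W : List (M × Bool)) :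
    f.mapMatrix (word x y e W) = word (f ∘ x) (f ∘ y) (f ∘ e) W := by
  unfold word
  rw [map_list_prod, List.map_map]
  congr 1
  apply List.map_congr_left
  intro s _
  exact letter_map f x y e s

theorem word_cons (x y e : M → R) (s : M × Bool) (W : List (M × Bool)) :
    word x y e (s :: W) = letter x y e s * word x y e W := by
  unfold word; simp

theorem word_nil (x y e : M → R) : word x y e [] = 1 := by
  unfold word; simp

theorem letter_mul_inv (x y e : M → R) (he : ∀ i, e i * e i = 1) (i : M) :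
    letter x y e (i, true) * letter x y e (i, false) = 1 := by
  have h := he i
  ext a b
  fin_cases a <;> fin_cases b <;> simp [letter, Matrix.mul_apply, Fin.sum_univ_two] <;> grind

theorem letter_inv_mul (x y e : M → R) (he : ∀ i, e i * e i = 1) (i : M) :
    letter x y e (i, false) * letter x y e (i, true) = 1 := by
  have h := he i
  ext a b
  fin_cases a <;> fin_cases b <;> simp [letter, Matrix.mul_apply, Fin.sum_univ_two] <;> grind

theorem letter_det (x y e : M → R) (i : M) :
    (letter x y e (i, true)).det = - e i := by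
  simp [letter, Matrix.det_fin_two]
  ring

end Ring

section PingPong

variable {M : Type}

/-- The index of the attracting point of a letter. -/
def attr (s : M × Bool) : M ⊕ M := if s.2 then Sum.inl s.1 else Sum.inr s.1

/-- The index of the repelling point of a letter. -/
def rep (s : M × Bool) : M ⊕ M := if s.2 then Sum.inr s.1 else Sum.inl s.1

theorem attr_eq_rep (s s' : M × Bool) (h : attr s' = rep s) : ¬ (s.1 = s'.1 → s.2 = s'.2) := by
  rcases s with ⟨a, b⟩
  rcases s' with ⟨a', b'⟩
  cases b <;> cases b' <;> simp_all [attr, rep]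

theorem pingpong (f : M ⊕ M → ℚ) (e : M → ℚ) (he : ∀ i, e i = 1 ∨ e i = -1)
    (T : Set (M ⊕ M)) (hT : ∀ a ∈ T, ∀ b ∈ T, a ≠ b → 2 ≤ |f a - f b|)
    (W : List (M × Bool)) (hW : ∀ s ∈ W, attr s ∈ T ∧ rep s ∈ T) (hred : FreeGroup.IsReduced W)
    (s : M × Bool) (W' : List (M × Bool)) (hs : W = s :: W') :
    |(word (f ∘ Sum.inl) (f ∘ Sum.inr) e W) 0 0 -
      f (attr s) * (word (f ∘ Sum.inl) (f ∘ Sum.inr) e W) 1 0| <
      |(word (f ∘ Sum.inl) (f ∘ Sum.inr) e W) 1 0| := by
  induction W' generalizing W s with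
  | nil =>
    subst hs
    rcases s with ⟨i, b⟩
    rw [word_cons, word_nil, mul_one]
    cases b
    · simp only [letter, attr, Function.comp]
      rcases he i with h | h <;> simp [h]
    · simp [letter, attr]
  | cons s' W'' ih =>
    subst hs
    have h1 := ih (s' :: W'') (fun t ht => hW t (List.mem_cons_of_mem _ ht))
      ((FreeGroup.isReduced_cons_cons.1 hred).2) s' rfl
    have hne : attr s' ≠ rep s := fun h => attr_eq_rep s s' h (FreeGroup.isReduced_cons_cons.1 hred).1
    have h2 : 2 ≤ |f (attr s') - f (rep s)| :=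
      hT _ (hW s' (by simp)).1 _ (hW s (by simp)).2 hne
    rw [word_cons]
    set p := (word (f ∘ Sum.inl) (f ∘ Sum.inr) e (s' :: W'')) 0 0 with hp
    set q := (word (f ∘ Sum.inl) (f ∘ Sum.inr) e (s' :: W'')) 1 0 with hq
    -- the point is outside the repelling disc
    have h3 : |q| < |p - f (rep s) * q| := by
      have e1 : (f (attr s') - f (rep s)) * q = (p - f (rep s) * q) - (p - f (attr s') * q) := by
        ring
      have e2 : |f (attr s') - f (rep s)| * |q| ≤ |p - f (rep s) * q| + |p - f (attr s') * q| := by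
        rw [← abs_mul, e1]
        exact abs_sub _ _
      have hq0 : 0 ≤ |q| := abs_nonneg q
      nlinarith
    rw [Matrix.mul_apply, Matrix.mul_apply, Fin.sum_univ_two, Fin.sum_univ_two, ← hp, ← hq]
    rcases s with ⟨i, b⟩
    cases b
    · simp only [rep, Bool.false_eq_true, if_false] at h3
      simp only [letter, attr, Function.comp, Bool.false_eq_true, if_false, Matrix.of_apply,
        Matrix.cons_val_zero, Matrix.cons_val_one, Matrix.cons_val', Matrix.cons_val_fin_one]
      rcases he i with h | h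
      · rw [h]
        have a1 : 1 * f (Sum.inr i) * p + (1 - 1 * f (Sum.inl i) * f (Sum.inr i)) * q -
            f (Sum.inr i) * (1 * p + -(1 * f (Sum.inl i)) * q) = q := by ring
        have a2 : 1 * p + -(1 * f (Sum.inl i)) * q = p - f (Sum.inl i) * q := by ring
        rw [a1, a2]
        exact h3
      · rw [h]
        have a1 : -1 * f (Sum.inr i) * p + (1 - -1 * f (Sum.inl i) * f (Sum.inr i)) * q -
            f (Sum.inr i) * (-1 * p + -(-1 * f (Sum.inl i)) * q) = q := by ring
        have a2 : -1 * p + -(-1 * f (Sum.inl i)) * q = -(p - f (Sum.inl i) * q) := by ring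
        rw [a1, a2, abs_neg]
        exact h3
    · simp only [rep, if_true] at h3
      simp only [letter, attr, Function.comp, if_true, Matrix.of_apply,
        Matrix.cons_val_zero, Matrix.cons_val_one, Matrix.cons_val', Matrix.cons_val_fin_one]
      have a2 : 1 * p + -f (Sum.inr i) * q = p - f (Sum.inr i) * q := by ring
      rcases he i with h | h
      · rw [h]
        have a1 : f (Sum.inl i) * p + (1 - f (Sum.inl i) * f (Sum.inr i)) * q -
            f (Sum.inl i) * (1 * p + -f (Sum.inr i) * q) = q := by ring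
        rw [a1, a2]
        exact h3
      · rw [h]
        have a1 : f (Sum.inl i) * p + (-1 - f (Sum.inl i) * f (Sum.inr i)) * q -
            f (Sum.inl i) * (1 * p + -f (Sum.inr i) * q) = -q := by ring
        rw [a1, a2, abs_neg]
        exact h3

end PingPong

section Generic

variable {M : Type}

/-- A function with integer values which are far apart on a finite set. -/
theorem exists_spread {X : Type} (T : Set X) (hT : T.Finite) :
    ∃ f : X → ℚ, ∀ a ∈ T, ∀ b ∈ T, a ≠ b → 2 ≤ |f a - f b| := by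
  classical
  obtain ⟨g, hg⟩ := Set.countable_iff_exists_injOn.1 hT.countable
  refine ⟨fun a => 2 * (g a : ℚ), fun a ha b hb hab => ?_⟩
  have h1 : g a ≠ g b := fun h => hab (hg ha hb h)
  have h2 : (1 : ℤ) ≤ |(g a : ℤ) - (g b : ℤ)| := by
    apply Int.one_le_abs
    intro h
    apply h1
    omega
  have h3 : (1 : ℚ) ≤ |(g a : ℚ) - (g b : ℚ)| := by exact_mod_cast h2
  have h4 : 2 * (g a : ℚ) - 2 * (g b : ℚ) = 2 * ((g a : ℚ) - (g b : ℚ)) := by ring
  rw [h4, abs_mul, abs_two]
  linarith

theorem word_ne_zero_rat (e : M → ℚ) (he : ∀ i, e i = 1 ∨ e i = -1) (W : List (M × Bool))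
    (hred : FreeGroup.IsReduced W) (hne : W ≠ []) :
    ∃ f : M ⊕ M → ℚ, (word (f ∘ Sum.inl) (f ∘ Sum.inr) e W) 1 0 ≠ 0 := by
  have hfin : {a : M ⊕ M | ∃ s ∈ W, a = attr s ∨ a = rep s}.Finite := by
    classical
    refine Set.Finite.subset (List.finite_toSet (W.map attr ++ W.map rep)) ?_
    rintro a ⟨s, hs, rfl | rfl⟩
    · simp only [Set.mem_ofPred_eq, List.mem_append, List.mem_map]
      exact Or.inl ⟨s, hs, rfl⟩
    · simp only [Set.mem_ofPred_eq, List.mem_append, List.mem_map]
      exact Or.inr ⟨s, hs, rfl⟩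
  obtain ⟨f, hf⟩ := exists_spread _ hfin
  refine ⟨f, ?_⟩
  obtain ⟨s, W', rfl⟩ := List.exists_cons_of_ne_nil hne
  have h := pingpong f e he _ hf (s :: W') (fun t ht => ⟨⟨t, ht, Or.inl rfl⟩, ⟨t, ht, Or.inr rfl⟩⟩)
    hred s W' rfl
  intro h0
  rw [h0, abs_zero] at h
  exact absurd h (not_lt.2 (abs_nonneg _))

theorem word_ne_zero_real (ρ : M ⊕ M → ℝ) (hρ : AlgebraicIndependent ℚ ρ) (e : M → ℚ)
    (he : ∀ i, e i = 1 ∨ e i = -1) (W : List (M × Bool))
    (hred : FreeGroup.IsReduced W) (hne : W ≠ []) :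
    (word (ρ ∘ Sum.inl) (ρ ∘ Sum.inr) (fun i => (e i : ℝ)) W) 1 0 ≠ 0 := by
  obtain ⟨f, hf⟩ := word_ne_zero_rat e he W hred hne
  set P : Matrix (Fin 2) (Fin 2) (MvPolynomial (M ⊕ M) ℚ) :=
    word (fun i => MvPolynomial.X (Sum.inl i)) (fun i => MvPolynomial.X (Sum.inr i))
      (fun i => MvPolynomial.C (e i)) W with hP
  have h1 : (MvPolynomial.eval f).mapMatrix P = word (f ∘ Sum.inl) (f ∘ Sum.inr) e W := by
    rw [hP, word_map]
    congr 1 <;> funext i <;> simp
  have h2 : ((MvPolynomial.aeval ρ : MvPolynomial (M ⊕ M) ℚ →ₐ[ℚ] ℝ) :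
      MvPolynomial (M ⊕ M) ℚ →+* ℝ).mapMatrix P =
      word (ρ ∘ Sum.inl) (ρ ∘ Sum.inr) (fun i => (e i : ℝ)) W := by
    rw [hP, word_map]
    congr 1 <;> funext i <;> simp
  have h3 : P 1 0 ≠ 0 := by
    intro h
    apply hf
    rw [← h1, RingHom.mapMatrix_apply, Matrix.map_apply, h, map_zero]
  rw [← h2, RingHom.mapMatrix_apply, Matrix.map_apply]
  intro h
  exact h3 (hρ.eq_zero_of_aeval_eq_zero _ h)

open Cardinal in
theorem exists_algInd (hM : Cardinal.mk M ≤ Cardinal.continuum) :
    ∃ ρ : M → ℝ, AlgebraicIndependent ℚ ρ := by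
  obtain ⟨s, hs⟩ := exists_isTranscendenceBasis ℚ ℝ
  have hsc : 𝔠 ≤ #s := by
    by_contra hcon
    push Not at hcon
    have h1 : #ℝ ≤ max #(Algebra.adjoin ℚ (Set.range ((↑) : s → ℝ))) ℵ₀ := by
      have := hs.isAlgebraic
      exact Algebra.IsAlgebraic.cardinalMk_le_max _ _
    have h2 : #(Algebra.adjoin ℚ (Set.range ((↑) : s → ℝ))) = #(MvPolynomial s ℚ) :=
      (Cardinal.mk_congr hs.1.aevalEquiv.toEquiv).symm
    have h3 : #(MvPolynomial s ℚ) ≤ max (max #ℚ #s) ℵ₀ := MvPolynomial.cardinalMk_le_max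
    rw [h2, mk_real] at h1
    have hQ : #ℚ < 𝔠 := by
      rw [Cardinal.mkRat]; exact aleph0_lt_continuum
    have h4 : max (max (#ℚ) (#s)) ℵ₀ < 𝔠 := max_lt (max_lt hQ hcon) aleph0_lt_continuum
    exact absurd (h1.trans (max_le h3 (le_max_right _ _))) (not_le.2 h4)
  obtain ⟨φ⟩ := hM.trans hsc
  exact ⟨fun x => (φ x : ℝ), hs.1.comp φ φ.injective⟩

end Generic

end Pool.Agent.K3h32.Congr
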