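import Pool.Agent.K3h32.Congr.Axis

/-!
# Periodic solutions of a system of congruences on a free group
-/

set_option autoImplicit false

namespace Pool.Agent.K3h32.Congr

open FreeGroup

variable {I M : Type}

section Words

theorem inv_inv (s : M × Bool) : inv (inv s) = s := by
  rcases s with ⟨i, b⟩; cases b <;> rfl

theorem mk_inv (s : M × Bool) : FreeGroup.mk [inv s] = (FreeGroup.mk [s])⁻¹ := by
  rw [FreeGroup.inv_mk]; rfl

theorem step_cases [DecidableEq M] (s : M × Bool) (v : FreeGroup M) :
    (FreeGroup.mk [s] * v).toWord = s :: v.toWord ∨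
      v.toWord = inv s :: (FreeGroup.mk [s] * v).toWord := by
  have h1 : (FreeGroup.mk [s] * v).toWord = FreeGroup.reduce (s :: v.toWord) := by
    conv_lhs => rw [← FreeGroup.mk_toWord (x := v)]
    rw [FreeGroup.mul_mk, FreeGroup.toWord_mk]; rfl
  rw [h1, FreeGroup.reduce.cons, FreeGroup.reduce_toWord]
  rcases hv : v.toWord with _ | ⟨hd, tl⟩
  · left; rfl
  · simp only
    split_ifs with hc
    · right
      congr 1
      rcases s with ⟨i, b⟩
      rcases hd with ⟨i', b'⟩
      simp only at hc
      obtain ⟨rfl, hb⟩ := hc
      subst hb
      simp [inv]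
    · left; rfl

theorem toWord_mul_of_reduced [DecidableEq M] (v w : FreeGroup M)
    (h : FreeGroup.IsReduced (v.toWord ++ w.toWord)) :
    (v * w).toWord = v.toWord ++ w.toWord := by
  rw [FreeGroup.toWord_mul, h.reduce_eq]

/-- A reduced concatenation from the behaviour at the junction. -/
theorem isReduced_append {A B : List (M × Bool)} (hA : FreeGroup.IsReduced A)
    (hB : FreeGroup.IsReduced B)
    (h : ∀ a ∈ A.getLast?, ∀ b ∈ B.head?, a.1 = b.1 → a.2 = b.2) :
    FreeGroup.IsReduced (A ++ B) := by
  unfold FreeGroup.IsReduced at *
  exact List.isChain_append.2 ⟨hA, hB, h⟩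

theorem getLast?_eq_of_suffix {A : List (M × Bool)} {a : M × Bool} (h : [a] <:+ A) :
    A.getLast? = some a := by
  obtain ⟨X, rfl⟩ := h
  simp

theorem suffix_of_getLast? {A : List (M × Bool)} {a : M × Bool} (h : A.getLast? = some a) :
    [a] <:+ A := by
  have hne : A ≠ [] := by rintro rfl; simp at h
  rw [List.getLast?_eq_some_getLast hne] at h
  refine ⟨A.dropLast, ?_⟩
  have := List.dropLast_append_getLast hne
  rw [Option.some_inj.1 h] at this
  exact this

end Words

section Main

variable [DecidableEq M]

/-- Data: a cyclically reduced nonempty word `t₀ :: W₁` -/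
structure Data (M : Type) [DecidableEq M] where
  t0 : M × Bool
  W1 : List (M × Bool)
  cyc : FreeGroup.IsCyclicallyReduced (t0 :: W1)

namespace Data

variable (D : Data M)

/-- the word -/
def W : List (M × Bool) := D.t0 :: D.W1

/-- the element -/
def w : FreeGroup M := FreeGroup.mk D.W

theorem toWord_w : D.w.toWord = D.W := by
  unfold w
  rw [FreeGroup.toWord_mk]
  exact D.cyc.isReduced.reduce_eq

/-- The fundamental domain. -/
def K (v : FreeGroup M) : Prop := ¬ D.W <:+ v.toWord ∧ ¬ [inv D.t0] <:+ v.toWord

theorem not_cancel {v : FreeGroup M} (h : ¬ [inv D.t0] <:+ v.toWord) :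
    ∀ a ∈ v.toWord.getLast?, ∀ b ∈ D.W.head?, a.1 = b.1 → a.2 = b.2 := by
  intro a ha b hb
  have hb' : b = D.t0 := by
    simp only [W, List.head?_cons, Option.mem_def, Option.some_inj] at hb
    exact hb.symm
  subst hb'
  intro h1
  by_contra h2
  apply h
  have : a = inv D.t0 := by
    rcases a with ⟨i, b⟩
    unfold inv
    simp only at h1 h2 ⊢
    rw [h1]
    congr 1
    cases b <;> cases hb : D.t0.2 <;> simp_all
  rw [← this]
  exact suffix_of_getLast? ha

theorem toWord_mul_w {v : FreeGroup M} (h : ¬ [inv D.t0] <:+ v.toWord) :
    (v * D.w).toWord = v.toWord ++ D.W := by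
  rw [toWord_mul_of_reduced, D.toWord_w]
  rw [D.toWord_w]
  exact isReduced_append FreeGroup.isReduced_toWord D.cyc.isReduced (D.not_cancel h)

theorem W_getLast : ∀ a ∈ D.W.getLast?, a ≠ inv D.t0 := by
  intro a ha hc
  have := D.cyc.2 a ha D.t0 (by simp)
  rw [hc] at this
  unfold inv at this
  simp at this

theorem not_suffix_append_W (A : List (M × Bool)) : ¬ [inv D.t0] <:+ A ++ D.W := by
  intro h
  have h1 := getLast?_eq_of_suffix h
  have hne : D.W ≠ [] := by simp [W]
  rw [List.getLast?_append_of_ne_nil _ hne] at h1
  exact D.W_getLast _ h1 rfl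

theorem toWord_mul_pow {v : FreeGroup M} (h : ¬ [inv D.t0] <:+ v.toWord) (k : ℕ) :
    ¬ [inv D.t0] <:+ (v * D.w ^ k).toWord ∧
      (k ≠ 0 → D.W <:+ (v * D.w ^ k).toWord) := by
  induction k with
  | zero => simpa using h
  | succ k ih =>
    rw [pow_succ, ← mul_assoc, D.toWord_mul_w ih.1]
    exact ⟨D.not_suffix_append_W _, fun _ => List.suffix_append _ _⟩

theorem K_unique_nat {v : FreeGroup M} (hv : D.K v) {k : ℕ} (hk : D.K (v * D.w ^ k)) : k = 0 := by
  by_contra h
  exact hk.1 ((D.toWord_mul_pow hv.2 k).2 h)

theorem K_unique {v : FreeGroup M} (hv : D.K v) {k : ℤ} (hk : D.K (v * D.w ^ k)) : k = 0 := by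
  rcases Int.eq_nat_or_neg k with ⟨m, rfl | rfl⟩
  · rw [zpow_natCast] at hk
    have := D.K_unique_nat hv hk
    simp [this]
  · have h1 : D.K (v * D.w ^ (-(m : ℤ)) * D.w ^ m) := by
      have : v * D.w ^ (-(m : ℤ)) * D.w ^ m = v := by
        rw [mul_assoc, ← zpow_natCast, ← zpow_add]; simp
      rw [this]; exact hv
    have := D.K_unique_nat hk h1
    simp [this]

theorem w_inv_head : D.w⁻¹.toWord = FreeGroup.invRev D.W := by
  rw [FreeGroup.toWord_inv, D.toWord_w]

theorem K_exists (u : FreeGroup M) : ∃ k : ℤ, D.K (u * D.w ^ k) := by
  -- an element of least length in the coset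
  obtain ⟨k, hk⟩ : ∃ k : ℤ, ∀ l : ℤ, (u * D.w ^ k).norm ≤ (u * D.w ^ l).norm := by
    have hne : (Set.range fun k : ℤ => (u * D.w ^ k).norm).Nonempty := ⟨_, 0, rfl⟩
    obtain ⟨k, hk⟩ := Nat.sInf_mem hne
    refine ⟨k, fun l => ?_⟩
    simp only at hk
    rw [hk]
    exact Nat.sInf_le ⟨l, rfl⟩
  set v := u * D.w ^ k with hv
  have hmin : ∀ l : ℤ, v.norm ≤ (v * D.w ^ l).norm := by
    intro l
    have := hk (k + l)
    rwa [zpow_add, ← mul_assoc] at this
  -- `v` does not end with `W`
  have hW : ¬ D.W <:+ v.toWord := by
    rintro ⟨X, hX⟩
    have hXr : FreeGroup.IsReduced X := by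
      have : FreeGroup.IsReduced (X ++ D.W) := by rw [hX]; exact FreeGroup.isReduced_toWord
      unfold FreeGroup.IsReduced at *
      exact (List.isChain_append.1 this).1
    have hvx : v = FreeGroup.mk X * D.w := by
      rw [← FreeGroup.mk_toWord (x := v), ← hX, w, FreeGroup.mul_mk]
    have h2 := hmin (-1)
    rw [hvx, mul_assoc] at h2
    have : D.w * D.w ^ (-1 : ℤ) = 1 := by simp
    rw [this, mul_one] at h2
    have h3 : (FreeGroup.mk X).norm = X.length := by
      unfold FreeGroup.norm
      rw [FreeGroup.toWord_mk, hXr.reduce_eq]
    have h4 : (FreeGroup.mk X * D.w).norm = X.length + D.W.length := by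
      rw [← hvx]
      unfold FreeGroup.norm
      rw [← hX, List.length_append]
    rw [h3, h4] at h2
    simp [W] at h2
  by_cases hI : [inv D.t0] <:+ v.toWord
  · -- then `v * w` is in `K`
    refine ⟨k + 1, ?_⟩
    have hkk : u * D.w ^ (k + 1) = v * D.w := by rw [zpow_add, zpow_one, ← mul_assoc]
    rw [hkk]
    constructor
    · rintro ⟨X, hX⟩
      have hXr : FreeGroup.IsReduced X := by
        have : FreeGroup.IsReduced (X ++ D.W) := by rw [hX]; exact FreeGroup.isReduced_toWord
        unfold FreeGroup.IsReduced at *
        exact (List.isChain_append.1 this).1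
      have hvx : v = FreeGroup.mk X := by
        have : v * D.w = FreeGroup.mk X * D.w := by
          rw [← FreeGroup.mk_toWord (x := v * D.w), ← hX, w, FreeGroup.mul_mk]
        exact mul_right_cancel this
      have hvX : v.toWord = X := by rw [hvx, FreeGroup.toWord_mk, hXr.reduce_eq]
      -- `X ++ W` is reduced, although `X` ends with the inverse of the first letter of `W`
      have hred : FreeGroup.IsReduced (X ++ D.W) := by rw [hX]; exact FreeGroup.isReduced_toWord
      have h5 := (List.isChain_append.1 hred).2.2 (inv D.t0)
        (by rw [← hvX]; exact getLast?_eq_of_suffix hI) D.t0 (by simp [W])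
      unfold inv at h5
      simp at h5
    · intro hI2
      -- then `v` ends with the inverse of `W`
      have hred : FreeGroup.IsReduced ((v * D.w).toWord ++ D.w⁻¹.toWord) := by
        refine isReduced_append FreeGroup.isReduced_toWord FreeGroup.isReduced_toWord ?_
        intro a ha b hb
        rw [getLast?_eq_of_suffix hI2] at ha
        simp only [Option.mem_def, Option.some_inj] at ha
        subst ha
        -- the first letter of the inverse is the inverse of the last letter of `W`
        rw [D.w_inv_head, FreeGroup.invRev, List.head?_reverse, List.getLast?_map] at hb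
        simp only [Option.mem_def, Option.map_eq_some_iff] at hb
        obtain ⟨c, hc, rfl⟩ := hb
        intro h6
        have h7 := D.cyc.2 c hc D.t0 (by simp)
        unfold inv at h6 ⊢
        simp only at h6 ⊢
        rw [h7 h6.symm]
      have h8 := toWord_mul_of_reduced _ _ hred
      rw [mul_inv_cancel_right] at h8
      have h9 := hmin 1
      rw [zpow_one] at h9
      unfold FreeGroup.norm at h9
      rw [h8, List.length_append, D.w_inv_head] at h9
      simp [W] at h9
  · exact ⟨k, hW, hI⟩

end Data

/-- The colour at the end of a reduced word. -/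
noncomputable def col (W : List (M × Bool)) (a : ℕ → I) (next : M × Bool → I → I) :
    List (M × Bool) → I
  | [] => a 0
  | s :: X => open Classical in if (s :: X) <:+ W then a (X.length + 1) else next s (col W a next X)

theorem col_suffix (W : List (M × Bool)) (a : ℕ → I) (next : M × Bool → I → I)
    (X : List (M × Bool)) (hX : X <:+ W) : col W a next X = a X.length := by
  cases X with
  | nil => rfl
  | cons s X => rw [col, if_pos hX]; rfl

/-- The periodic sequence of letters read along the axis of `W`. -/
def seq (D : Data M) (j : ℤ) : M × Bool :=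
  D.W.reverse.getD (j % D.W.length).toNat D.t0

theorem seq_periodic (D : Data M) (j : ℤ) : seq D (j + D.W.length) = seq D j := by
  unfold seq
  simp

theorem seq_eq (D : Data M) {s : M × Bool} {X : List (M × Bool)} (h : s :: X <:+ D.W) :
    seq D (X.length : ℤ) = s := by
  obtain ⟨Y, hY⟩ := h
  unfold seq
  have hlen : X.length < D.W.length := by
    rw [← hY, List.length_append, List.length_cons]; omega
  rw [Int.emod_eq_of_lt (by positivity) (by exact_mod_cast hlen), Int.toNat_natCast, ← hY]
  simp only [List.reverse_append, List.reverse_cons, List.append_assoc]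
  rw [List.getD_append_right _ _ _ _ (by simp)]
  simp

omit [DecidableEq M] in
theorem lift_mk_sgn (L R : M → Set I) (α : I) (W : List (M × Bool)) :
    FreeGroup.lift (fun i => sgn L R α (i, true)) (FreeGroup.mk W) =
      (W.map (sgn L R α)).prod := by
  rw [FreeGroup.lift_mk]
  congr 1
  apply List.map_congr_left
  rintro ⟨i, b⟩ _
  cases b
  · simp only [cond_false]
    have : sgn L R α (i, false) = sgn L R α (i, true) := by
      unfold sgn src tgt
      simp only [Bool.false_eq_true, if_false, if_true]
      congr 1
      exact propext ⟨fun h => h.symm, fun h => h.symm⟩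
    rw [this]
    exact Int.units_inv_eq_self _
  · rfl

theorem prod_seq (L R : M → Set I) (α : I) (D : Data M) :
    ∏ k ∈ Finset.range D.W.length, sgn L R α (seq D k) = (D.W.map (sgn L R α)).prod := by
  have h1 : (D.W.map (sgn L R α)).prod = (D.W.reverse.map (sgn L R α)).prod := by
    rw [List.map_reverse, List.prod_reverse]
  rw [h1, ← Fin.prod_univ_eq_prod_range (fun k => sgn L R α (seq D k))]
  have h2 : D.W.reverse.map (sgn L R α) =
      List.ofFn (fun k : Fin D.W.length => sgn L R α (seq D k)) := by
    apply List.ext_getElem
    · simp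
    · intro k hk1 hk2
      simp only [List.getElem_map, List.getElem_ofFn]
      congr 1
      unfold seq
      have hk : k < D.W.length := by simpa using hk1
      rw [Int.emod_eq_of_lt (by positivity) (by exact_mod_cast hk), Int.toNat_natCast]
      rw [List.getD_eq_getElem _ _ (by simpa using hk)]
  rw [h2, List.prod_ofFn]

/-- Periodic colourings: cyclically reduced case. -/
theorem periodic_cyc {L R : M → Set I} (h : Proper L R) (α : I) (D : Data M)
    (hD : FreeGroup.lift (fun i => sgn L R α (i, true)) D.w = 1) :
    ∃ c : FreeGroup M → I, (∀ u, c (u * D.w) = c u) ∧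
      ∀ i u, c u ∈ L i ↔ c (FreeGroup.of i * u) ∈ R i := by
  have hn : 0 < D.W.length := by simp [Data.W]
  obtain ⟨next, hnext, -⟩ := exists_next h
  obtain ⟨a', ha1, ha2⟩ := axis h α (seq D) hn (seq_periodic D)
    (by rw [prod_seq, ← lift_mk_sgn]; exact hD)
  set a : ℕ → I := fun k => a' k with ha
  set n := D.W.length with hnn
  have han : a n = a 0 := by
    simp only [ha]
    have := ha1 0
    rw [zero_add] at this
    rw [this]; rfl
  -- the local rule
  have hstep : ∀ (s : M × Bool) (X : List (M × Bool)),
      (col D.W a next X ∈ src L R s ↔ col D.W a next (s :: X) ∈ tgt L R s) := by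
    intro s X
    by_cases hs : s :: X <:+ D.W
    · rw [col_suffix _ _ _ _ hs, col_suffix _ _ _ X ((List.suffix_cons s X).trans hs)]
      have := ha2 X.length
      rw [seq_eq D hs] at this
      rw [this]
      simp only [ha, List.length_cons]
      push_cast
      rfl
    · rw [col, if_neg hs]
      exact hnext _ _
  choose k hk using D.K_exists
  let r : FreeGroup M → FreeGroup M := fun u => u * D.w ^ k u
  have hr_uniq : ∀ u v : FreeGroup M, D.K v → (∃ m : ℤ, v = u * D.w ^ m) → r u = v := by
    rintro u v hv ⟨m, rfl⟩
    have h1 := hk u
    have h2 : D.K (u * D.w ^ m * D.w ^ (k u - m)) := by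
      rw [mul_assoc, ← zpow_add]
      simpa using h1
    have h3 := D.K_unique hv h2
    have h4 : k u = m := by omega
    simp only [r, h4]
  have h1K : D.K 1 := by
    constructor
    · intro hh
      have := hh.length_le
      simp [Data.W] at this
    · intro hh
      have := hh.length_le
      simp at this
  -- symmetric local rule on the group, for words in `K`
  have hmain : ∀ (s : M × Bool) (u : FreeGroup M),
      (col D.W a next (r u).toWord ∈ src L R s ↔
        col D.W a next (r (FreeGroup.mk [s] * u)).toWord ∈ tgt L R s) := by
    intro s u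
    have hv : D.K (r u) := hk u
    obtain ⟨m, hm⟩ : ∃ m : ℤ, r u = u * D.w ^ m := ⟨k u, rfl⟩
    set v := r u with hvdef
    have hsv : FreeGroup.mk [s] * v = FreeGroup.mk [s] * u * D.w ^ m := by
      rw [hm, mul_assoc]
    by_cases hK : D.K (FreeGroup.mk [s] * v)
    · rw [hr_uniq _ _ hK ⟨m, hsv⟩]
      rcases step_cases s v with h1 | h1
      · rw [h1]; exact hstep s _
      · have := hstep (inv s) (FreeGroup.mk [s] * v).toWord
        rw [← h1, src_inv, tgt_inv] at this
        exact this.symm
    · rcases step_cases s v with h1 | h1
      · -- no cancellation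
        by_cases hW : D.W <:+ (FreeGroup.mk [s] * v).toWord
        · -- the word is `W`
          rw [h1] at hW
          rcases List.suffix_cons_iff.1 hW with h2 | h2
          · have hvs : v.toWord <:+ D.W := by rw [h2]; exact List.suffix_cons _ _
            have hw : FreeGroup.mk [s] * v = D.w := by
              rw [← FreeGroup.mk_toWord (x := FreeGroup.mk [s] * v), h1, ← h2]; rfl
            have hr1 : r (FreeGroup.mk [s] * u) = 1 := by
              apply hr_uniq _ _ h1K
              refine ⟨m - 1, ?_⟩
              rw [zpow_sub, ← mul_assoc, ← hsv, hw]; simp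
            rw [hr1, FreeGroup.toWord_one]
            have h3 := hstep s v.toWord
            rw [← h2, col_suffix D.W a next D.W (List.suffix_refl _), ← hnn, han] at h3
            exact h3
          · exact absurd h2 hv.1
        · -- the word is the inverse of the first letter
          have hI : [inv D.t0] <:+ (FreeGroup.mk [s] * v).toWord := by
            by_contra hI
            exact hK ⟨hW, hI⟩
          rw [h1] at hI
          rcases List.suffix_cons_iff.1 hI with h2 | h2
          · have hs : s = inv D.t0 := by
              have := List.cons.inj h2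
              exact this.1.symm
            have hv1 : v.toWord = [] := (List.cons.inj h2).2.symm
            have hv1' : v = 1 := FreeGroup.toWord_eq_nil_iff.1 hv1
            -- the representative is `W1`
            have hred : FreeGroup.IsReduced D.W1 := by
              have := D.cyc.isReduced
              unfold FreeGroup.IsReduced at *
              exact this.tail
            have hw1 : (FreeGroup.mk D.W1).toWord = D.W1 := by
              rw [FreeGroup.toWord_mk, hred.reduce_eq]
            have hK1 : D.K (FreeGroup.mk D.W1) := by
              constructor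
              · rw [hw1]
                intro hh
                have := hh.length_le
                simp [Data.W] at this
              · rw [hw1]
                intro hh
                have h3 := getLast?_eq_of_suffix hh
                have hne : D.W1 ≠ [] := by
                  rintro hnil
                  rw [hnil] at h3
                  simp at h3
                have h4 : D.W.getLast? = D.W1.getLast? := by
                  rw [Data.W]
                  exact List.getLast?_cons_of_ne_nil hne
                exact D.W_getLast (inv D.t0) (by rw [h4]; exact h3) rfl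
            have hww : FreeGroup.mk D.W1 = FreeGroup.mk [s] * D.w := by
              rw [hs, mk_inv, Data.w, Data.W, eq_inv_mul_iff_mul_eq, FreeGroup.mul_mk]
              rfl
            have hr1 : r (FreeGroup.mk [s] * u) = FreeGroup.mk D.W1 := by
              apply hr_uniq _ _ hK1
              refine ⟨m + 1, ?_⟩
              rw [zpow_add, zpow_one, ← mul_assoc, ← hsv, hv1', mul_one, hww]
            rw [hr1, hw1, hv1]
            have h3 := hstep D.t0 D.W1
            have h4 : col D.W a next (D.t0 :: D.W1) = a 0 := by
              have h5 := col_suffix D.W a next D.W (List.suffix_refl _)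
              rw [← hnn, han] at h5
              exact h5
            rw [h4] at h3
            rw [hs, src_inv, tgt_inv]
            exact h3.symm
          · exact absurd h2 hv.2
      · -- cancellation: then the new word is still in `K`
        exfalso
        apply hK
        have hsuf : (FreeGroup.mk [s] * v).toWord <:+ v.toWord := by
          conv_rhs => rw [h1]
          exact List.suffix_cons _ _
        exact ⟨fun hh => hv.1 (hh.trans hsuf), fun hh => hv.2 (hh.trans hsuf)⟩
  refine ⟨fun u => col D.W a next (r u).toWord, fun u => ?_, fun i u => ?_⟩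
  · simp only
    congr 2
    apply hr_uniq _ _ (hk u)
    refine ⟨k u - 1, ?_⟩
    rw [mul_assoc, ← zpow_one_add]
    congr 2
    ring
  · exact hmain (i, true) u

/-- Periodic colourings: general case. -/
theorem periodic {L R : M → Set I} (h : Proper L R) (α : I) (w : FreeGroup M)
    (hw : FreeGroup.lift (fun i => sgn L R α (i, true)) w = 1) :
    ∃ c : FreeGroup M → I, (∀ u, c (u * w) = c u) ∧
      ∀ i u, c u ∈ L i ↔ c (FreeGroup.of i * u) ∈ R i := by
  classical
  by_cases hw1 : w = 1
  · -- no periodicity condition
    subst hw1
    obtain ⟨next, hnext, -⟩ := exists_next h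
    have hstep : ∀ (s : M × Bool) (X : List (M × Bool)),
        (col [] (fun _ => α) next X ∈ src L R s ↔
          col [] (fun _ => α) next (s :: X) ∈ tgt L R s) := by
      intro s X
      rw [col, if_neg (by simp)]
      exact hnext _ _
    refine ⟨fun u => col [] (fun _ => α) next u.toWord, fun u => by simp, fun i u => ?_⟩
    have hof : FreeGroup.of i * u = FreeGroup.mk [(i, true)] * u := rfl
    rw [hof]
    rcases step_cases (i, true) u with h1 | h1
    · simp only [h1]
      exact hstep (i, true) u.toWord
    · have := hstep (inv (i, true)) (FreeGroup.mk [(i, true)] * u).toWord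
      rw [← h1, src_inv, tgt_inv] at this
      exact this.symm
  · -- conjugate to a cyclically reduced word
    set V := w.toWord with hV
    have hVr : FreeGroup.IsReduced V := FreeGroup.isReduced_toWord
    set g := FreeGroup.mk (FreeGroup.reduceCyclically.conjugator V) with hg
    set C := FreeGroup.reduceCyclically V with hC
    have hcyc : FreeGroup.IsCyclicallyReduced C := FreeGroup.reduceCyclically.isCyclicallyReduced hVr
    have hwg : w = g * FreeGroup.mk C * g⁻¹ := by
      rw [hg, FreeGroup.inv_mk, FreeGroup.mul_mk, FreeGroup.mul_mk,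
        FreeGroup.reduceCyclically.conj_conjugator_reduceCyclically, hV, FreeGroup.mk_toWord]
    rcases hC' : C with _ | ⟨t0, W1⟩
    · exfalso
      apply hw1
      rw [hwg, hC']
      rw [← FreeGroup.one_eq_mk]; simp
    · let D : Data M := ⟨t0, W1, by rw [← hC']; exact hcyc⟩
      have hDw : D.w = FreeGroup.mk C := by rw [hC']; rfl
      have hwg' : w = g * D.w * g⁻¹ := by rw [hDw]; exact hwg
      obtain ⟨c, hc1, hc2⟩ := periodic_cyc h α D (by
        rw [hwg', MonoidHom.map_mul, MonoidHom.map_mul, MonoidHom.map_inv, mul_comm, ← mul_assoc,
          inv_mul_cancel, one_mul] at hw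
        exact hw)
      refine ⟨fun u => c (u * g), fun u => ?_, fun i u => ?_⟩
      · simp only
        rw [hwg']
        have : u * (g * D.w * g⁻¹) * g = (u * g) * D.w := by group
        rw [this, hc1]
      · simp only
        rw [hc2, mul_assoc]

end Main

end Pool.Agent.K3h32.Congr
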